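import Pool.Agent.V1114.Conj.Statement

/-!
c-conjugacy in the symmetric inverse monoid on an arbitrary set.
-/

namespace Pool.Agent.Results.MP_3f621b_al.CConjugacy

open Cardinal Pool.Agent.V1114.Conj

universe u

/-- Classification of c-conjugacy in the symmetric inverse monoid `I(X)`, `X` an arbitrary set. -/
theorem result (X : Type u) (a b : SymInv X) : CConjugate a b ↔
    (∀ k : ℕ, #(biOrbits a k) = #(biOrbits b k)) ∧
    #(biOrbits a 0) + #(rightRays a) = #(biOrbits b 0) + #(rightRays b) ∧
    #(leftRays a) = #(leftRays b) ∧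
    ∀ k : ℕ, 1 ≤ k → #(terminals a k) = #(terminals b k) :=
  (cconjugate_iff a b).trans (cconj_iff a b)

end Pool.Agent.Results.MP_3f621b_al.CConjugacy
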